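import Pool.Agent.SKQ.Stmts

/-!
# MP_183729_an, row SGN: the determinant of the approximating linear map is positive
-/

set_option autoImplicit false

namespace Pool.Agent.SKQ.H15

open Metric Set Filter Topology MeasureTheory
open scoped ENNReal
open Helper22QC

/-- A linear map which expands norms by `m / 2` has a large determinant. -/
theorem det_lower {n : ℕ} (hdet : ∀ M : Mt n, |M.det| ≤ ‖M‖ ^ n) (L : Mt n) (m : ℝ) (hm : 0 < m)
    (hL : ∀ v, m / 2 * ‖v‖ ≤ ‖L v‖) : (m / 2) ^ n ≤ |L.det| := by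
  have hm2 : 0 < m / 2 := by positivity
  have hinj : Function.Injective (L : E n →ₗ[ℝ] E n) := by
    intro v w hvw
    have h1 : L (v - w) = 0 := by
      have h2 : L v = L w := hvw
      rw [map_sub, h2, sub_self]
    have h3 := hL (v - w)
    rw [h1, norm_zero] at h3
    have h4 : ‖v - w‖ ≤ 0 := by
      by_contra hcon
      push Not at hcon
      have := mul_pos hm2 hcon
      linarith
    exact sub_eq_zero.mp (norm_le_zero_iff.mp h4)
  let e := LinearEquiv.ofInjectiveEndo (L : E n →ₗ[ℝ] E n) hinj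
  let N : Mt n := LinearMap.toContinuousLinearMap (e.symm : E n →ₗ[ℝ] E n)
  have hLN : ∀ w, L (N w) = w := by
    intro w
    change (L : E n →ₗ[ℝ] E n) (e.symm w) = w
    exact (congrFun (LinearEquiv.coe_ofInjectiveEndo _ hinj) (e.symm w)).symm.trans
      (e.apply_symm_apply w)
  have hcomp : (L : E n →ₗ[ℝ] E n) ∘ₗ (N : E n →ₗ[ℝ] E n) = LinearMap.id := by
    ext1 w
    exact hLN w
  have hN : ‖N‖ ≤ 2 / m := by
    refine N.opNorm_le_bound (by positivity) fun w => ?_
    have h6 := hL (N w)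
    rw [hLN] at h6
    rw [div_mul_eq_mul_div, le_div_iff₀ hm]
    linarith
  have hd : L.det * N.det = 1 := by
    have h7 := congrArg LinearMap.det hcomp
    rw [LinearMap.det_comp, LinearMap.det_id] at h7
    exact h7
  have hNd : |N.det| ≤ (2 / m) ^ n :=
    (hdet N).trans (pow_le_pow_left₀ (norm_nonneg _) hN n)
  have h8 : |L.det| * |N.det| = 1 := by rw [← abs_mul, hd, abs_one]
  have h9 : (m / 2) ^ n * (2 / m) ^ n = 1 := by
    rw [← mul_pow]
    have : m / 2 * (2 / m) = 1 := by field_simp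
    rw [this, one_pow]
  have h10 : 1 ≤ |L.det| * (2 / m) ^ n := by
    rw [← h8]
    exact mul_le_mul_of_nonneg_left hNd (abs_nonneg _)
  have h11 : (m / 2) ^ n * (2 / m) ^ n ≤ |L.det| * (2 / m) ^ n := by rw [h9]; exact h10
  exact le_of_mul_le_mul_right h11 (by positivity)

/-- A fixed cut-off function. -/
theorem exists_cutoff (n : ℕ) : ∃ (φ : E n → ℝ) (D : ℝ), ContDiff ℝ (⊤ : ℕ∞) φ ∧
    tsupport φ ⊆ closedBall 0 1 ∧ 0 ≤ D ∧ (∀ y, ‖fderiv ℝ φ y‖ ≤ D) ∧ (∀ y, 0 ≤ φ y) ∧
    (∀ y, φ y ≤ 1) ∧ ∀ y ∈ closedBall (0 : E n) (1 / 2), φ y = 1 := by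
  let b : ContDiffBump (0 : E n) := ⟨1 / 2, 1, by norm_num, by norm_num⟩
  have hsm : ContDiff ℝ (⊤ : ℕ∞) (b : E n → ℝ) := b.contDiff
  have hcs : HasCompactSupport (b : E n → ℝ) := b.hasCompactSupport
  have hc : Continuous (fderiv ℝ (b : E n → ℝ)) := hsm.continuous_fderiv (by simp)
  obtain ⟨D, hD⟩ := (hcs.fderiv (𝕜 := ℝ)).exists_bound_of_continuous hc
  refine ⟨b, D, hsm, ?_, ?_, hD, fun y => b.nonneg' y, fun y => b.le_one, fun y hy => ?_⟩
  · rw [b.tsupport_eq]
  · exact (norm_nonneg _).trans (hD 0)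
  · exact b.one_of_mem_closedBall hy

/-- `m t^(n-1) ≤ m^n + t^n`. -/
theorem pow_pred_le {n : ℕ} (hn : 1 ≤ n) {m t : ℝ} (hm : 0 ≤ m) (ht : 0 ≤ t) :
    m * t ^ (n - 1) ≤ m ^ n + t ^ n := by
  obtain ⟨k, rfl⟩ := Nat.exists_eq_add_of_le' hn
  rw [Nat.add_sub_cancel]
  rcases le_total t m with h | h
  · have h1 : m * t ^ k ≤ m * m ^ k := mul_le_mul_of_nonneg_left (pow_le_pow_left₀ ht h k) hm
    have h2 : 0 ≤ t ^ (k + 1) := by positivity
    have h3 : m ^ (k + 1) = m * m ^ k := by ring
    linarith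
  · have h1 : m * t ^ k ≤ t * t ^ k := mul_le_mul_of_nonneg_right h (by positivity)
    have h2 : 0 ≤ m ^ (k + 1) := by positivity
    have h3 : t ^ (k + 1) = t * t ^ k := by ring
    linarith

theorem sgn (hADJ : ADJStmt) (hNLD : NLDStmt) : SGNStmt := by
  intro n hn
  have hn1 : 1 ≤ n := by omega
  obtain ⟨CA, hCA, -, -, hdetc, -, hdet, -⟩ := hADJ n hn1
  obtain ⟨C, hC, hnld⟩ := hNLD n hn1
  obtain ⟨φ, D, hφs, hφt, hD, hφD, hφ0, hφ1, hφ2⟩ := exists_cutoff n
  set ω : ℝ := volume.real (ball (0 : E n) 1) with hω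
  have hωpos : 0 < ω := by
    rw [hω, measureReal_def]
    exact ENNReal.toReal_pos (measure_ball_pos volume _ one_pos).ne' measure_ball_lt_top.ne
  set A : ℝ := 1 + 2 ^ (n - 1) * (2 * 3 ^ n + 2 ^ n) with hA
  have hApos : 0 < A := by positivity
  set κ : ℝ := min (1 / 3) ((1 / 4) ^ n / (2 * (C * D * A + 1))) with hκ
  have hden : 0 < 2 * (C * D * A + 1) := by positivity
  have hκpos : 0 < κ := lt_min (by norm_num) (by positivity)
  refine ⟨κ, hκpos, min_le_left _ _, ?_⟩
  intro R m f F L hR hf hm hL1 hL2 hfL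
  have hκ3 : κ ≤ 1 / 3 := min_le_left _ _
  set S : Set (E n) := closedBall 0 1 with hS
  have hSc : IsCompact S := isCompact_closedBall 0 1
  have hSm : MeasurableSet S := measurableSet_closedBall
  have hSR : S ⊆ ball 0 R := closedBall_subset_ball (by linarith)
  have hap := hf.sob S hSR hSc
  have hSfin : volume S < ⊤ := measure_closedBall_lt_top
  have hint : IntegrableOn (fun x => ‖F x‖ ^ n) S := hap.int
  have hdm : AEStronglyMeasurable (fun x => (F x).det) (volume.restrict S) :=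
    hdetc.comp_aestronglyMeasurable hap.meas
  have hdi : IntegrableOn (fun x => (F x).det) S := by
    refine Integrable.mono hint hdm (Eventually.of_forall fun x => ?_)
    rw [Real.norm_eq_abs, Real.norm_eq_abs, abs_of_nonneg (by positivity : (0 : ℝ) ≤ ‖F x‖ ^ n)]
    exact hdet (F x)
  have hqc : ∀ᵐ y ∂(volume.restrict S), ‖F y‖ ^ n ≤ 2 * (F y).det := by
    rw [ae_restrict_iff' hSm]
    filter_upwards [hf.qc] with y hy hyS
    exact hy (hSR hyS)
  have hd0 : ∀ᵐ y ∂(volume.restrict S), 0 ≤ (F y).det := by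
    filter_upwards [hqc] with y hy
    have : (0 : ℝ) ≤ ‖F y‖ ^ n := by positivity
    linarith
  -- the volume
  have hvol : ∫ x in S, (F x).det ≤ (3 * m) ^ n * ω := by
    have h1 : ∫⁻ x in S, ENNReal.ofReal (F x).det ≤ volume (closedBall (f 0) (3 * m)) := by
      have hmeas : Measurable ((closedBall (f 0) (3 * m)).indicator (1 : E n → ℝ≥0∞)) :=
        measurable_one.indicator measurableSet_closedBall
      calc ∫⁻ x in S, ENNReal.ofReal (F x).det
          = ∫⁻ x in S, (closedBall (f 0) (3 * m)).indicator (1 : E n → ℝ≥0∞) (f x) *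
              ENNReal.ofReal (F x).det := by
            refine setLIntegral_congr_fun hSm ?_
            intro x hx
            have hx2 : f x ∈ closedBall (f 0) (3 * m) := by
              rw [mem_closedBall, dist_eq_norm]
              have h3 := hfL x hx
              have h4 : ‖L x‖ ≤ 2 * m := by
                have hx1 : ‖x‖ ≤ 1 := by
                  have := mem_closedBall.mp hx
                  rwa [dist_zero_right] at this
                calc ‖L x‖ ≤ ‖L‖ * ‖x‖ := L.le_opNorm x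
                  _ ≤ 2 * m * 1 := mul_le_mul hL2 hx1 (norm_nonneg _) (by positivity)
                  _ = 2 * m := mul_one _
              calc ‖f x - f 0‖ = ‖(f x - f 0 - L x) + L x‖ := by rw [sub_add_cancel]
                _ ≤ ‖f x - f 0 - L x‖ + ‖L x‖ := norm_add_le _ _
                _ ≤ κ * m + 2 * m := add_le_add h3 h4
                _ ≤ 3 * m := by nlinarith
            simp only [Set.indicator_of_mem hx2, Pi.one_apply, one_mul]
        _ ≤ ∫⁻ x in ball 0 R, (closedBall (f 0) (3 * m)).indicator (1 : E n → ℝ≥0∞) (f x) *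
              ENNReal.ofReal (F x).det := lintegral_mono_set hSR
        _ = ∫⁻ z in f '' ball 0 R, (closedBall (f 0) (3 * m)).indicator (1 : E n → ℝ≥0∞) z :=
            hf.vol _ hmeas
        _ ≤ ∫⁻ z, (closedBall (f 0) (3 * m)).indicator (1 : E n → ℝ≥0∞) z :=
            setLIntegral_le_lintegral _ _
        _ = volume (closedBall (f 0) (3 * m)) := by
            rw [lintegral_indicator_one measurableSet_closedBall]
    rw [integral_eq_lintegral_of_nonneg_ae hd0 hdm]
    have h2 : volume (closedBall (f 0) (3 * m)) = ENNReal.ofReal ((3 * m) ^ n * ω) := by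
      rw [Measure.addHaar_closedBall volume (f 0) (by positivity : (0 : ℝ) ≤ 3 * m),
        finrank_euclideanSpace_fin, ENNReal.ofReal_mul (by positivity), hω, measureReal_def,
        ENNReal.ofReal_toReal measure_ball_lt_top.ne]
    rw [h2] at h1
    exact ENNReal.toReal_le_of_le_ofReal (by positivity) h1
  have hFn : ∫ x in S, ‖F x‖ ^ n ≤ 2 * ((3 * m) ^ n * ω) := by
    calc ∫ x in S, ‖F x‖ ^ n ≤ ∫ x in S, 2 * (F x).det :=
          integral_mono_ae hint (hdi.const_mul 2) hqc
      _ = 2 * ∫ x in S, (F x).det := integral_const_mul _ _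
      _ ≤ 2 * ((3 * m) ^ n * ω) := by linarith
  have hSvol : volume.real S = ω := by
    rw [hω, hS, measureReal_def, measureReal_def, Measure.addHaar_unitClosedBall_eq_addHaar_unitBall]
  -- the bound for the right side
  have hrhs : m * ∫ y in S, (‖F y‖ + ‖L‖) ^ (n - 1) ≤ ω * m ^ n * A := by
    have hpt : ∀ y, m * (‖F y‖ + ‖L‖) ^ (n - 1) ≤ (m ^ n + 2 ^ (n - 1) * (2 * m) ^ n) +
        2 ^ (n - 1) * ‖F y‖ ^ n := by
      intro y
      have h1 := pow_pred_le hn1 hm.le (add_nonneg (norm_nonneg (F y)) (norm_nonneg L))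
      have h2 : (‖F y‖ + ‖L‖) ^ n ≤ 2 ^ (n - 1) * (‖F y‖ ^ n + ‖L‖ ^ n) :=
        add_pow_le (norm_nonneg _) (norm_nonneg _) n
      have h3 : ‖L‖ ^ n ≤ (2 * m) ^ n := pow_le_pow_left₀ (norm_nonneg _) hL2 n
      have h4 : (2 : ℝ) ^ (n - 1) * ‖L‖ ^ n ≤ 2 ^ (n - 1) * (2 * m) ^ n :=
        mul_le_mul_of_nonneg_left h3 (by positivity)
      nlinarith
    have hc1 : Integrable (fun _ : E n => m ^ n + 2 ^ (n - 1) * (2 * m) ^ n)
        (volume.restrict S) := integrableOn_const (hs := hSfin.ne)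
    have hc2 : Integrable (fun y : E n => 2 ^ (n - 1) * ‖F y‖ ^ n) (volume.restrict S) :=
      hint.const_mul _
    have hi2 : IntegrableOn (fun y => (m ^ n + 2 ^ (n - 1) * (2 * m) ^ n) +
        2 ^ (n - 1) * ‖F y‖ ^ n) S := hc1.add hc2
    have hi1 : IntegrableOn (fun y => m * (‖F y‖ + ‖L‖) ^ (n - 1)) S := by
      refine Integrable.mono hi2 ?_ (Eventually.of_forall fun y => ?_)
      · exact ((hap.meas.norm.add aestronglyMeasurable_const).pow _).const_mul _
      · rw [Real.norm_eq_abs, Real.norm_eq_abs, abs_of_nonneg (by positivity),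
          abs_of_nonneg (by positivity)]
        exact hpt y
    calc m * ∫ y in S, (‖F y‖ + ‖L‖) ^ (n - 1) = ∫ y in S, m * (‖F y‖ + ‖L‖) ^ (n - 1) :=
          (integral_const_mul _ _).symm
      _ ≤ ∫ y in S, ((m ^ n + 2 ^ (n - 1) * (2 * m) ^ n) + 2 ^ (n - 1) * ‖F y‖ ^ n) :=
          integral_mono hi1 hi2 hpt
      _ = ω * (m ^ n + 2 ^ (n - 1) * (2 * m) ^ n) + 2 ^ (n - 1) * ∫ y in S, ‖F y‖ ^ n := by
          rw [integral_add hc1 hc2, setIntegral_const, smul_eq_mul, integral_const_mul, hSvol]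
      _ ≤ ω * (m ^ n + 2 ^ (n - 1) * (2 * m) ^ n) + 2 ^ (n - 1) * (2 * ((3 * m) ^ n * ω)) := by
          have : (0 : ℝ) ≤ 2 ^ (n - 1) := by positivity
          nlinarith
      _ = ω * m ^ n * A := by
          rw [hA, mul_pow, mul_pow]
          ring
  have hmain := hnld (ball 0 R) S f F φ L (f 0) (κ * m) D isOpen_ball hf.sob hSc hSR hφs hφt hφD hfL
  -- suppose that the determinant is not positive
  by_contra hcon
  push Not at hcon
  have hLd : (m / 2) ^ n ≤ - L.det := by
    have := det_lower hdet L m hm hL1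
    rwa [abs_of_nonpos hcon] at this
  have hφc : Continuous φ := hφs.continuous
  have hφi : IntegrableOn φ S := hφc.continuousOn.integrableOn_compact hSc
  have hφdi : IntegrableOn (fun y => φ y * (F y).det) S := by
    refine Integrable.mono hdi (hφc.aestronglyMeasurable.mul hdm) (Eventually.of_forall fun y => ?_)
    rw [norm_mul, Real.norm_eq_abs, abs_of_nonneg (hφ0 y)]
    exact mul_le_of_le_one_left (norm_nonneg _) (hφ1 y)
  have hlow : (m / 2) ^ n * ((1 / 2) ^ n * ω) ≤ ∫ y in S, φ y * ((F y).det - L.det) := by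
    have h1 : ∫ y in S, φ y * ((F y).det - L.det) =
        (∫ y in S, φ y * (F y).det) + (- L.det) * ∫ y in S, φ y := by
      rw [← integral_const_mul, ← integral_add hφdi (hφi.const_mul _)]
      refine integral_congr_ae (Eventually.of_forall fun y => ?_)
      change φ y * ((F y).det - L.det) = φ y * (F y).det + - L.det * φ y
      ring
    have h2 : 0 ≤ ∫ y in S, φ y * (F y).det := by
      refine integral_nonneg_of_ae ?_
      filter_upwards [hd0] with y hy
      exact mul_nonneg (hφ0 y) hy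
    have h3 : (1 / 2) ^ n * ω ≤ ∫ y in S, φ y := by
      have hsub : closedBall (0 : E n) (1 / 2) ⊆ S := closedBall_subset_closedBall (by norm_num)
      have h4 : ∫ y in closedBall (0 : E n) (1 / 2), φ y ≤ ∫ y in S, φ y :=
        setIntegral_mono_set hφi (Eventually.of_forall hφ0) hsub.eventuallyLE
      have h5 : ∫ y in closedBall (0 : E n) (1 / 2), φ y =
          ∫ y in closedBall (0 : E n) (1 / 2), (1 : ℝ) :=
        setIntegral_congr_fun measurableSet_closedBall fun y hy => hφ2 y hy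
      have h6 : ∫ y in closedBall (0 : E n) (1 / 2), (1 : ℝ) = (1 / 2) ^ n * ω := by
        rw [setIntegral_const, smul_eq_mul, mul_one, measureReal_def,
          Measure.addHaar_closedBall volume (0 : E n) (by norm_num : (0 : ℝ) ≤ 1 / 2),
          finrank_euclideanSpace_fin, ENNReal.toReal_mul, ENNReal.toReal_ofReal (by positivity), hω,
          measureReal_def]
      rw [← h6, ← h5]
      exact h4
    have h7 : (m / 2) ^ n * ((1 / 2) ^ n * ω) ≤ (- L.det) * ∫ y in S, φ y :=
      mul_le_mul hLd h3 (by positivity) (le_trans (by positivity) hLd)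
    rw [h1]
    linarith
  have hup : ∫ y in S, φ y * ((F y).det - L.det) ≤ C * κ * D * (ω * m ^ n * A) := by
    calc ∫ y in S, φ y * ((F y).det - L.det) ≤ |∫ y in S, φ y * ((F y).det - L.det)| :=
          le_abs_self _
      _ ≤ C * (κ * m) * D * ∫ y in S, (‖F y‖ + ‖L‖) ^ (n - 1) := hmain
      _ = C * κ * D * (m * ∫ y in S, (‖F y‖ + ‖L‖) ^ (n - 1)) := by ring
      _ ≤ C * κ * D * (ω * m ^ n * A) := mul_le_mul_of_nonneg_left hrhs (by positivity)
  have hκ2 : κ * (2 * (C * D * A + 1)) ≤ (1 / 4) ^ n := by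
    have : κ ≤ (1 / 4) ^ n / (2 * (C * D * A + 1)) := min_le_right _ _
    rwa [le_div_iff₀ hden] at this
  have heq : (m / 2) ^ n * ((1 / 2) ^ n * ω) = (1 / 4) ^ n * (ω * m ^ n) := by
    rw [div_pow, div_pow, div_pow]
    have h4 : (4 : ℝ) ^ n = 2 ^ n * 2 ^ n := by rw [← mul_pow]; norm_num
    rw [h4, one_pow]
    field_simp
  rw [heq] at hlow
  have hωm : 0 < ω * m ^ n := by positivity
  have h12 : (1 / 4) ^ n * (ω * m ^ n) ≤ (C * κ * D * A) * (ω * m ^ n) := by
    calc (1 / 4) ^ n * (ω * m ^ n) ≤ _ := hlow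
      _ ≤ C * κ * D * (ω * m ^ n * A) := hup
      _ = (C * κ * D * A) * (ω * m ^ n) := by ring
  have h13 : (1 / 4 : ℝ) ^ n ≤ C * κ * D * A := le_of_mul_le_mul_right h12 hωm
  have h14 : C * κ * D * A ≤ κ * (C * D * A + 1) := by nlinarith
  have h15 : 0 < κ * (C * D * A + 1) := by positivity
  linarith

end Pool.Agent.SKQ.H15
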